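import Pool.Agent.H697Z.GssMain

set_option autoImplicit false

universe u

namespace Pool.Agent.Results.MP_ce9e93_lc.ASingular

open Pool.Agent.H697Z.Gss

/-- Above a supercompact cardinal there is a level `V_Ω` of the cumulative hierarchy which is a
model of ZFC in which the least `Ψ_gss`-large cardinal exists and is singular. -/
theorem result (κ₀ : Cardinal.{u}) (h : Supercompact κ₀) :
    ∃ Ω : Ordinal.{u}, IsModelZFC (ZFSet.vonNeumann Ω : Set ZFSet.{u}) ∧
      ∃ κ : Ordinal.{u}, PsiLarge Ω PsiGss κ ∧ (∀ β < κ, ¬ PsiLarge Ω PsiGss β) ∧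
        SingularIn (ZFSet.vonNeumann Ω) κ := by
  obtain ⟨Ω, -, h1, -, κ, -, h3⟩ := main h
  exact ⟨Ω, h1, κ, h3⟩

end Pool.Agent.Results.MP_ce9e93_lc.ASingular
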